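import Pool.Agent.H33R3.Bom.Stmts2
import Pool.Agent.H33R3.Bom.I1

/-! Task M1 of the second part of H33-BOM (helper34) -/

set_option autoImplicit false
set_option maxHeartbeats 4000000

namespace Pool.Agent.H34R3.Bom2

open Complex Metric Set Filter Topology
open Pool.Agent.H33R3.Bom
open scoped ComplexConjugate

theorem UU_diff (Y : ℂ → ℂ) (hY : IsG Y) : DifferentiableOn ℂ (UU Y) (ball 0 1) :=
  (I1.hh_diff Y hY).add (I1.conj_diff (I1.hh_diff Y hY))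

theorem taskM1 : TaskM1 := by
  intro hL hU Y hY n hn
  have hn' : (2 : ℝ) ≤ n := by exact_mod_cast hn
  obtain ⟨D, hD⟩ : ∃ D : ℝ, D = 2 * n := ⟨_, rfl⟩
  rw [← hD]
  have hD4 : 4 ≤ D := by rw [hD]; linarith
  have hD0 : 0 < D := by linarith
  obtain ⟨r, hr⟩ : ∃ r : ℝ, r = 1 - 1 / D := ⟨_, rfl⟩
  have hu : 1 - r = 1 / D := by rw [hr]; ring
  have hu4 : 1 / D ≤ 1 / 4 := one_div_le_one_div_of_le (by norm_num) hD4
  have hu0 : 0 < 1 / D := by positivity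
  have hr34 : 3 / 4 ≤ r := by rw [hr]; linarith
  have hr1 : r < 1 := by rw [hr]; linarith
  have hr0 : 0 < r := by linarith
  have hDr : D * (1 - r) = 1 := by rw [hu]; field_simp
  have hr4 : 1 / 4 ≤ r ^ (2 * n) := by
    have h2 : (1 : ℝ) / 2 ≤ r ^ n := by
      have := one_add_mul_le_pow (a := -(1 / D)) (by linarith) n
      have h3 : 1 + (n : ℝ) * -(1 / D) = 1 / 2 := by
        rw [hD]
        have : (n : ℝ) ≠ 0 := by positivity
        field_simp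
        ring
      rw [h3] at this
      rw [hr, sub_eq_add_neg]
      exact this
    have h5 : r ^ (2 * n) = (r ^ n) ^ 2 := by rw [mul_comm 2 n, pow_mul]
    rw [h5]
    nlinarith
  have hlog : Real.log (1 - r) = - Real.log D := by rw [hu, one_div, Real.log_inv]
  have hlogD : 0 ≤ Real.log D := Real.log_nonneg (by linarith)
  obtain ⟨Lg, hLg⟩ : ∃ Lg : ℝ, Lg = 2 + Real.log D := ⟨_, rfl⟩
  rw [← hLg]
  have hLg0 : 2 ≤ Lg := by rw [hLg]; linarith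
  have hU' : ∀ z : ℂ, ‖z‖ = r →
      ‖UU Y z‖ * ‖z ^ 2 + (((1 + r) / 2 : ℝ) : ℂ) ^ 2‖ * (1 / D) ≤ 172 * ep Y * Lg := by
    intro z hz
    have hzb : z ∈ ball (0 : ℂ) 1 := by simpa [hz] using hr1
    have h1 := hU Y hY z hzb (by rw [hz]; linarith)
    rw [hz, hlog, hu, sub_neg_eq_add, ← hLg] at h1
    exact h1
  have hep : 0 ≤ ep Y := by
    have h1 := hU' (r : ℂ) (by rw [Complex.norm_real, Real.norm_of_nonneg hr0.le])
    have h2 : 0 ≤ 172 * ep Y * Lg := le_trans (by positivity) h1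
    by_contra hc
    have h3 : ep Y < 0 := not_le.1 hc
    nlinarith
  have hb : ∀ z : ℂ, ‖z‖ = r → ‖z ^ 3 * UU Y z * ((1 - z ^ 2)⁻¹) ^ 3‖ ≤
      (344 * ep Y * Lg * D ^ 2) / ‖1 - z ^ 2‖ ^ 2 + 0 := by
    intro z hz
    have h1 := hU' z hz
    have ha1 : 1 - r ^ 2 ≤ ‖1 - z ^ 2‖ := by
      have := norm_sub_norm_le (1 : ℂ) (z ^ 2)
      rwa [norm_one, norm_pow, hz] at this
    have hb1 : ((1 + r) / 2) ^ 2 - r ^ 2 ≤ ‖z ^ 2 + (((1 + r) / 2 : ℝ) : ℂ) ^ 2‖ := by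
      have := norm_sub_norm_le ((((1 + r) / 2 : ℝ) : ℂ) ^ 2) (-z ^ 2)
      rw [norm_pow, Complex.norm_real, Real.norm_of_nonneg (by linarith), norm_neg, norm_pow, hz,
        sub_neg_eq_add, add_comm ((((1 + r) / 2 : ℝ) : ℂ) ^ 2)] at this
      exact this
    have hab : 1 ≤ ‖1 - z ^ 2‖ + ‖z ^ 2 + (((1 + r) / 2 : ℝ) : ℂ) ^ 2‖ := by
      have h2 := norm_add_le (1 - z ^ 2) (z ^ 2 + (((1 + r) / 2 : ℝ) : ℂ) ^ 2)
      have h3 : (1 - z ^ 2) + (z ^ 2 + (((1 + r) / 2 : ℝ) : ℂ) ^ 2) =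
          ((1 + ((1 + r) / 2) ^ 2 : ℝ) : ℂ) := by
        push_cast
        ring
      rw [h3, Complex.norm_real, Real.norm_of_nonneg (by positivity)] at h2
      nlinarith [sq_nonneg ((1 + r) / 2)]
    obtain ⟨a, ha⟩ : ∃ a : ℝ, a = ‖1 - z ^ 2‖ := ⟨_, rfl⟩
    obtain ⟨b, hb⟩ : ∃ b : ℝ, b = ‖z ^ 2 + (((1 + r) / 2 : ℝ) : ℂ) ^ 2‖ := ⟨_, rfl⟩
    rw [← hb] at h1 hb1 hab
    rw [← ha] at ha1 hab
    have ha2 : 7 / 4 ≤ D * a := by
      have : D * (1 - r ^ 2) = 1 + r := by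
        linear_combination (1 + r) * hDr
      nlinarith
    have hb2 : 13 / 16 ≤ D * b := by
      have : D * (((1 + r) / 2) ^ 2 - r ^ 2) = (1 + 3 * r) / 4 := by
        linear_combination ((1 + 3 * r) / 4) * hDr
      nlinarith
    have ha0 : 0 < a := by
      by_contra hc
      nlinarith [not_lt.1 hc]
    have hb0 : 0 < b := by
      by_contra hc
      nlinarith [not_lt.1 hc]
    have key : 1 ≤ 2 * D * (a * b) := by
      have k1 : 13 / 16 * a ≤ D * b * a := mul_le_mul_of_nonneg_right hb2 ha0.le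
      have k2 : 7 / 4 * b ≤ D * a * b := mul_le_mul_of_nonneg_right ha2 hb0.le
      have k3 : D * b * a = D * (a * b) := by ring
      have k4 : D * a * b = D * (a * b) := by ring
      linarith
    have hUb : ‖UU Y z‖ * b ≤ 172 * ep Y * Lg * D := by
      rw [mul_one_div, div_le_iff₀ hD0] at h1
      exact h1
    have hUU : ‖UU Y z‖ ≤ 344 * ep Y * Lg * D ^ 2 * a := by
      calc ‖UU Y z‖ = ‖UU Y z‖ * 1 := (mul_one _).symm
        _ ≤ ‖UU Y z‖ * (2 * D * (a * b)) := mul_le_mul_of_nonneg_left key (norm_nonneg _)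
        _ = (2 * D * a) * (‖UU Y z‖ * b) := by ring
        _ ≤ (2 * D * a) * (172 * ep Y * Lg * D) := mul_le_mul_of_nonneg_left hUb (by positivity)
        _ = _ := by ring
    rw [norm_mul, norm_mul, norm_pow, norm_pow, norm_inv, hz, ← ha, add_zero]
    calc r ^ 3 * ‖UU Y z‖ * (a⁻¹) ^ 3 ≤ 1 * (344 * ep Y * Lg * D ^ 2 * a) * (a⁻¹) ^ 3 := by
          refine mul_le_mul_of_nonneg_right ?_ (by positivity)
          exact mul_le_mul (pow_le_one₀ hr0.le hr1.le) hUU (norm_nonneg _) zero_le_one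
      _ = _ := by
          field_simp
  have hdiff : DifferentiableOn ℂ (fun z => z ^ 3 * UU Y z * ((1 - z ^ 2)⁻¹) ^ 3) (ball 0 1) := by
    have h1 : DifferentiableOn ℂ (fun z : ℂ => 1 - z ^ 2) (ball 0 1) := by fun_prop
    have h2 : DifferentiableOn ℂ (fun z : ℂ => z ^ 3) (ball 0 1) := by fun_prop
    exact (h2.mul (UU_diff Y hY)).mul ((h1.inv fun z hz => I1.ker_ne hz).pow 3)
  have h := hL (fun z => z ^ 3 * UU Y z * ((1 - z ^ 2)⁻¹) ^ 3) r (344 * ep Y * Lg * D ^ 2) 0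
    hdiff hr0 hr1 hb (2 * n)
  obtain ⟨x, hx⟩ : ∃ x : ℝ, x = ‖coeff (2 * n) (fun z => z ^ 3 * UU Y z * ((1 - z ^ 2)⁻¹) ^ 3)‖ :=
    ⟨_, rfl⟩
  have hx0 : 0 ≤ x := by rw [hx]; exact norm_nonneg _
  rw [← hx] at h ⊢
  have h14 : 1 ≤ D * (1 - r ^ 4) := by
    have : D * (1 - r ^ 4) = (1 + r) * (1 + r ^ 2) := by
      linear_combination ((1 + r) * (1 + r ^ 2)) * hDr
    rw [this]
    nlinarith [sq_nonneg r]
  have h140 : 0 < 1 - r ^ 4 := by
    by_contra hc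
    nlinarith [not_lt.1 hc]
  have hB0 : 0 ≤ 344 * ep Y * Lg * D ^ 2 := by positivity
  have hB : (344 * ep Y * Lg * D ^ 2) / (1 - r ^ 4) ≤ (344 * ep Y * Lg * D ^ 2) * D := by
    rw [div_le_iff₀ h140, mul_assoc (344 * ep Y * Lg * D ^ 2)]
    exact le_mul_of_one_le_right hB0 h14
  have h4 : x * (1 / 4) ≤ x * r ^ (2 * n) := mul_le_mul_of_nonneg_left hr4 hx0
  have h5 : (344 * ep Y * Lg * D ^ 2) * D = 2752 * ((n : ℝ) ^ 3 * Lg * ep Y) := by
    rw [hD]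
    ring
  have h6 : 0 ≤ (n : ℝ) ^ 3 * Lg * ep Y := by positivity
  calc x ≤ 4 * (2752 * ((n : ℝ) ^ 3 * Lg * ep Y)) := by linarith
    _ ≤ 17000 * ((n : ℝ) ^ 3 * Lg * ep Y) := by linarith
    _ = _ := by ring

end Pool.Agent.H34R3.Bom2
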